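import Pool.Agent.H75Z.LotsLarge

set_option autoImplicit false

open Cardinal

namespace Pool.Agent.Results.MP_4e3057_lc.NoUniversalLOTS

universe u

/-- A LOTS embedding: an injective, order-preserving map which is continuous for the open interval
topologies (`Preorder.topology` is the order topology, generated by the open rays). -/
def IsLOTSEmbedding {A B : Type u} [LinearOrder A] [LinearOrder B] (f : A → B) : Prop :=
  Function.Injective f ∧ Monotone f ∧
    @Continuous A B (Preorder.topology A) (Preorder.topology B) f

/-- `U` is a universal LOTS at `κ`: it has cardinality `κ`, and every linear order of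
cardinality `κ` has a LOTS embedding into `U`. -/
def IsUniversalLOTS (κ : Cardinal.{u}) (U : Type u) [LinearOrder U] : Prop :=
  #U = κ ∧ ∀ (L : Type u) [LinearOrder L], #L = κ → ∃ f : L → U, IsLOTSEmbedding f

/-- There is no universal LOTS at any uncountable cardinal. -/
theorem result (κ : Cardinal.{u}) (hκ : ℵ₀ < κ) :
    ¬ ∃ (U : Type u) (_ : LinearOrder U), IsUniversalLOTS κ U := by
  rintro ⟨U, _, rfl, hU⟩
  exact Pool.Agent.H75Z.Lots.main hκ hU

end Pool.Agent.Results.MP_4e3057_lc.NoUniversalLOTS
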